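import Mathlib

/-!
The colour `psi` of an integer: its residue modulo `27`, its 3-adic valuation modulo `3` and the
three lowest digits of its unit part. Facts on sums of integers of given colours.
-/

namespace Pool.Agent.V11238.AIP

/-- The colours. -/
abbrev Col : Type := ZMod 27 × ZMod 3 × ZMod 27

/-- The colour of `y`: residue modulo 27, 3-adic valuation modulo 3, unit part modulo 27. -/
def psi (y : ℤ) : Col :=
  ((y : ZMod 27), ((padicValInt 3 y : ℕ) : ZMod 3), ((y / 3 ^ padicValInt 3 y : ℤ) : ZMod 27))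

theorem val_mul (w : ℕ) (u : ℤ) (hu : ¬ (3 : ℤ) ∣ u) : padicValInt 3 (3 ^ w * u) = w := by
  have h0 : u ≠ 0 := by rintro rfl; exact hu (dvd_zero _)
  have h3 : (3 : ℕ).Prime := Nat.prime_three
  haveI : Fact (3 : ℕ).Prime := ⟨h3⟩
  unfold padicValInt
  rw [Int.natAbs_mul, Int.natAbs_pow]
  have h1 : u.natAbs ≠ 0 := Int.natAbs_ne_zero.mpr h0
  have h2 : ((3 : ℤ)).natAbs = 3 := rfl
  rw [h2, padicValNat.mul (by positivity) h1, padicValNat.prime_pow,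
    padicValNat.eq_zero_of_not_dvd, add_zero]
  intro h
  apply hu
  exact Int.natAbs_dvd_natAbs.mp (by simpa using h)

theorem psi_mul (w : ℕ) (u : ℤ) (hu : ¬ (3 : ℤ) ∣ u) :
    psi (3 ^ w * u) = (((3 ^ w * u : ℤ) : ZMod 27), ((w : ℕ) : ZMod 3), (u : ZMod 27)) := by
  unfold psi
  rw [val_mul w u hu]
  rw [Int.mul_ediv_cancel_left u (by positivity)]

theorem psi_zero : psi 0 = (0, 0, 0) := by
  simp [psi]

/-- Every nonzero integer is a power of 3 times an integer prime to 3. -/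
theorem decomp (y : ℤ) (hy : y ≠ 0) : ∃ (w : ℕ) (u : ℤ), y = 3 ^ w * u ∧ ¬ (3 : ℤ) ∣ u := by
  obtain ⟨w, u, h, hu⟩ := (Int.finiteMultiplicity_iff (a := 3) (b := y)).mpr
    ⟨by decide, hy⟩ |>.exists_eq_pow_mul_and_not_dvd
    |> fun h => (⟨multiplicity (3 : ℤ) y, h.choose, h.choose_spec.1, h.choose_spec.2⟩ :
      ∃ (w : ℕ) (u : ℤ), y = 3 ^ w * u ∧ ¬ (3 : ℤ) ∣ u)
  exact ⟨w, u, h, hu⟩

theorem zmod27 (a b : ℤ) : ((a : ZMod 27) = (b : ZMod 27)) ↔ (27 : ℤ) ∣ b - a := by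
  exact_mod_cast ZMod.intCast_eq_intCast_iff_dvd_sub a b 27

theorem zmod3n (a b : ℕ) : ((a : ZMod 3) = (b : ZMod 3)) ↔ a % 3 = b % 3 :=
  ZMod.natCast_eq_natCast_iff' a b 3

/-- Integers of the same colour as `3 ^ v * U`. -/
theorem inv_col (y : ℤ) (v : ℕ) (U : ℤ) (hU : ¬ (3 : ℤ) ∣ U) (h : psi y = psi (3 ^ v * U)) :
    ∃ (w : ℕ) (u : ℤ), y = 3 ^ w * u ∧ ¬ (3 : ℤ) ∣ u ∧ w % 3 = v % 3 ∧ (27 : ℤ) ∣ U - u ∧
      (27 : ℤ) ∣ 3 ^ v * U - 3 ^ w * u := by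
  rw [psi_mul v U hU] at h
  have hy : y ≠ 0 := by
    rintro rfl
    rw [psi_zero] at h
    have h2 : ((0 : ℤ) : ZMod 27) = (U : ZMod 27) := by
      simpa using congrArg (fun c : Col => c.2.2) h
    rw [zmod27] at h2
    omega
  obtain ⟨w, u, rfl, hu⟩ := decomp y hy
  rw [psi_mul w u hu] at h
  have h1 := congrArg (fun c : Col => c.1) h
  have h2 := congrArg (fun c : Col => c.2.1) h
  have h3 := congrArg (fun c : Col => c.2.2) h
  simp only at h1 h2 h3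
  rw [zmod27] at h1 h3
  rw [zmod3n] at h2
  exact ⟨w, u, rfl, hu, h2, h3, h1⟩

theorem pow_split (a b : ℕ) (h : a < b) : (3 : ℤ) ^ b = 3 ^ a * (3 * 3 ^ (b - a - 1)) := by
  rw [← pow_succ', ← pow_add]
  congr 1
  omega

/-- The colour does not change if the power of 3 changes by a multiple of 3. -/
theorem scaling (a b : ℕ) (X : ℤ) (h : a % 3 = b % 3) (h' : a = b ∨ (3 ≤ a ∧ 3 ≤ b)) :
    psi (3 ^ a * X) = psi (3 ^ b * X) := by
  rcases h' with rfl | ⟨ha, hb⟩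
  · rfl
  · by_cases hX : X = 0
    · simp [hX]
    · obtain ⟨c, u, rfl, hu⟩ := decomp X hX
      rw [← mul_assoc, ← mul_assoc, ← pow_add, ← pow_add, psi_mul _ _ hu, psi_mul _ _ hu]
      refine Prod.ext ?_ (Prod.ext ?_ rfl)
      · simp only
        rw [zmod27]
        have h1 : (27 : ℤ) ∣ 3 ^ (a + c) := by
          have : (27 : ℤ) = 3 ^ 3 := by norm_num
          rw [this]; exact pow_dvd_pow _ (by omega)
        have h2 : (27 : ℤ) ∣ 3 ^ (b + c) := by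
          have : (27 : ℤ) = 3 ^ 3 := by norm_num
          rw [this]; exact pow_dvd_pow _ (by omega)
        exact dvd_sub (Dvd.dvd.mul_right h2 u) (Dvd.dvd.mul_right h1 u)
      · simp only
        rw [zmod3n]
        omega

theorem min_one (w1 w2 w3 : ℕ) (u1 u2 u3 : ℤ) (h : 3 ^ w1 * u1 + 3 ^ w2 * u2 + 3 ^ w3 * u3 = 0)
    (h2 : w1 < w2) (h3 : w1 < w3) : (3 : ℤ) ∣ u1 := by
  rw [pow_split w1 w2 h2, pow_split w1 w3 h3] at h
  have h4 : (3 : ℤ) ^ w1 * (u1 + 3 * (3 ^ (w2 - w1 - 1) * u2 + 3 ^ (w3 - w1 - 1) * u3)) = 0 := by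
    linear_combination h
  rcases mul_eq_zero.mp h4 with h5 | h5
  · exact absurd h5 (by positivity)
  · exact ⟨-(3 ^ (w2 - w1 - 1) * u2 + 3 ^ (w3 - w1 - 1) * u3), by linarith⟩

theorem min_two (w w3 : ℕ) (u1 u2 u3 : ℤ) (h : 3 ^ w * u1 + 3 ^ w * u2 + 3 ^ w3 * u3 = 0)
    (h3 : w < w3) : (3 : ℤ) ∣ u1 + u2 := by
  rw [pow_split w w3 h3] at h
  have h4 : (3 : ℤ) ^ w * (u1 + u2 + 3 * (3 ^ (w3 - w - 1) * u3)) = 0 := by
    linear_combination h
  rcases mul_eq_zero.mp h4 with h5 | h5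
  · exact absurd h5 (by positivity)
  · exact ⟨-(3 ^ (w3 - w - 1) * u3), by linarith⟩

theorem three_equal (w1 w2 w3 : ℕ) (u1 u2 u3 : ℤ)
    (h : 3 ^ w1 * u1 + 3 ^ w2 * u2 + 3 ^ w3 * u3 = 0)
    (h1 : ¬ (3 : ℤ) ∣ u1) (h2 : ¬ (3 : ℤ) ∣ u2) (h3 : ¬ (3 : ℤ) ∣ u3)
    (h12 : ¬ (3 : ℤ) ∣ u1 + u2) (h13 : ¬ (3 : ℤ) ∣ u1 + u3) (h23 : ¬ (3 : ℤ) ∣ u2 + u3) :
    w1 = w2 ∧ w2 = w3 ∧ u1 + u2 + u3 = 0 := by
  have e : w1 = w2 ∧ w2 = w3 := by
    rcases lt_trichotomy w1 w2 with a | a | a <;> rcases lt_trichotomy w2 w3 with b | b | b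
    · exact absurd (min_one w1 w2 w3 u1 u2 u3 h a (by omega)) h1
    · exact absurd (min_one w1 w2 w3 u1 u2 u3 h a (by omega)) h1
    · rcases lt_trichotomy w1 w3 with c | c | c
      · exact absurd (min_one w1 w2 w3 u1 u2 u3 h a c) h1
      · subst c
        exact absurd (min_two w1 w2 u1 u3 u2 (by linarith) a) h13
      · exact absurd (min_one w3 w1 w2 u3 u1 u2 (by linarith) c b) h3
    · subst a
      exact absurd (min_two w1 w3 u1 u2 u3 h b) h12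
    · exact ⟨a, b⟩
    · subst a
      exact absurd (min_one w3 w1 w1 u3 u1 u2 (by linarith) b b) h3
    · exact absurd (min_one w2 w1 w3 u2 u1 u3 (by linarith) a b) h2
    · subst b
      exact absurd (min_two w2 w1 u2 u3 u1 (by linarith) a) h23
    · exact absurd (min_one w3 w1 w2 u3 u1 u2 (by linarith) (by omega) b) h3
  obtain ⟨rfl, rfl⟩ := e
  refine ⟨rfl, rfl, ?_⟩
  have h4 : (3 : ℤ) ^ w1 * (u1 + u2 + u3) = 0 := by linear_combination h
  rcases mul_eq_zero.mp h4 with h5 | h5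
  · exact absurd h5 (by positivity)
  · exact h5

theorem two_equal (w1 w2 w3 : ℕ) (u1 u2 u3 : ℤ)
    (h : 3 ^ w1 * u1 + 3 ^ w2 * u2 + 3 ^ w3 * u3 = 0)
    (h1 : ¬ (3 : ℤ) ∣ u1) (h2 : ¬ (3 : ℤ) ∣ u2) (h3 : ¬ (3 : ℤ) ∣ u3)
    (w12 : w1 % 3 ≠ w2 % 3) (w23 : w2 % 3 = w3 % 3)
    (h23 : (3 : ℤ) ∣ u2 + u3) (h23' : ¬ (9 : ℤ) ∣ u2 + u3) :
    u2 + u3 + 3 * u1 = 0 := by
  have e : w2 = w3 := by
    rcases lt_trichotomy w2 w3 with a | a | a
    · rcases lt_or_gt_of_ne (show w1 ≠ w2 by rintro rfl; exact w12 rfl) with b | b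
      · exact absurd (min_one w1 w2 w3 u1 u2 u3 h b (by omega)) h1
      · exact absurd (min_one w2 w1 w3 u2 u1 u3 (by linarith) b a) h2
    · exact a
    · rcases lt_or_gt_of_ne (show w1 ≠ w3 by rintro rfl; omega) with b | b
      · exact absurd (min_one w1 w2 w3 u1 u2 u3 h (by omega) b) h1
      · exact absurd (min_one w3 w1 w2 u3 u1 u2 (by linarith) b a) h3
  subst e
  obtain ⟨t, ht⟩ := h23
  have ht' : ¬ (3 : ℤ) ∣ t := by
    rintro ⟨r, rfl⟩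
    exact h23' ⟨r, by rw [ht]; ring⟩
  have h5 : (3 : ℤ) ^ w1 * u1 + 3 ^ (w2 + 1) * t = 0 := by
    rw [pow_succ]; linear_combination h - (3 : ℤ) ^ w2 * ht
  have e2 : w1 = w2 + 1 := by
    rcases lt_trichotomy w1 (w2 + 1) with a | a | a
    · exfalso
      apply h1
      apply min_one w1 (w2 + 1) (w2 + 1) u1 t 0 (by linarith) a a
    · exact a
    · exfalso
      apply ht'
      apply min_one (w2 + 1) w1 w1 t u1 0 (by linarith) a a
  subst e2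
  have h6 : (3 : ℤ) ^ (w2 + 1) * (u1 + t) = 0 := by linear_combination h5
  rcases mul_eq_zero.mp h6 with h7 | h7
  · exact absurd h7 (by positivity)
  · rw [ht]; linarith

end Pool.Agent.V11238.AIP
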