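import Mathlib

/-!
Three functions on the integers not divisible by 9, with values modulo 3, whose values have sum
zero at all triples with sum zero, do not change under translations by multiples of 3.
-/

namespace Pool.Agent.V11238.AIP

variable (F1 F2 F3 : ℤ → ZMod 3)
  (H : ∀ i j k : ℤ, ¬ (9 : ℤ) ∣ i → ¬ (9 : ℤ) ∣ j → ¬ (9 : ℤ) ∣ k → i + j + k = 0 →
    F1 i + F2 j + F3 k = 0)

include H

theorem diff_eq (a b d : ℤ) (ha : ¬ (9 : ℤ) ∣ a) (had : ¬ (9 : ℤ) ∣ a + d) (hb : ¬ (9 : ℤ) ∣ b)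
    (hbd : ¬ (9 : ℤ) ∣ b + d) (hab : ¬ (9 : ℤ) ∣ a + b + d) :
    F1 (a + d) - F1 a = F2 (b + d) - F2 b := by
  have h1 := H (a + d) b (-(a + b + d)) had hb (by omega) (by ring)
  have h2 := H a (b + d) (-(a + b + d)) ha hbd (by omega) (by ring)
  linear_combination h1 - h2

theorem chain (e : ℤ) (he : ¬ (3 : ℤ) ∣ e) : F1 (e + 3 * e) = F1 e := by
  have h1 := diff_eq F1 F2 F3 H e e e (by omega) (by omega) (by omega) (by omega) (by omega)
  have h2 := diff_eq F1 F2 F3 H (2 * e) e e (by omega) (by omega) (by omega) (by omega) (by omega)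
  have h3 := diff_eq F1 F2 F3 H (3 * e) e e (by omega) (by omega) (by omega) (by omega) (by omega)
  have e1 : e + e = 2 * e := by ring
  have e2 : 2 * e + e = 3 * e := by ring
  have e3 : 3 * e + e = e + 3 * e := by ring
  rw [e1] at h1 h2 h3
  rw [e2] at h2
  rw [e3] at h3
  have h4 : (3 : ZMod 3) = 0 := by decide
  linear_combination h1 + h2 + h3 + (F2 (2 * e) - F2 e) * h4

theorem trans_unit (a e : ℤ) (he : ¬ (3 : ℤ) ∣ e) (ha : ¬ (9 : ℤ) ∣ a)
    (had : ¬ (9 : ℤ) ∣ a + 3 * e) : F1 (a + 3 * e) = F1 a := by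
  have key : ∀ b : ℤ, ¬ (9 : ℤ) ∣ b → ¬ (9 : ℤ) ∣ b + 3 * e → ¬ (9 : ℤ) ∣ a + b + 3 * e →
      ¬ (9 : ℤ) ∣ e + b + 3 * e → F1 (a + 3 * e) = F1 a := by
    intro b hb hb2 hb3 hb4
    have h1 := diff_eq F1 F2 F3 H a b (3 * e) ha had hb hb2 hb3
    have h2 := diff_eq F1 F2 F3 H e b (3 * e) (by omega) (by omega) hb hb2 hb4
    have h3 := chain F1 F2 F3 H e he
    linear_combination h1 - h2 + h3
  by_cases h : (3 : ℤ) ∣ a + e
  · exact key (-e) (by omega) (by omega) (by omega) (by omega)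
  · exact key e (by omega) (by omega) (by omega) (by omega)

theorem pure_const (i i' : ℤ) (hi : ¬ (9 : ℤ) ∣ i) (hi' : ¬ (9 : ℤ) ∣ i') (h : (3 : ℤ) ∣ i' - i) :
    F1 i' = F1 i := by
  obtain ⟨e, he⟩ := h
  obtain rfl : i' = i + 3 * e := by linarith
  by_cases h3 : (3 : ℤ) ∣ e
  · by_cases h9 : (9 : ℤ) ∣ i + 3
    · have h1 := trans_unit F1 F2 F3 H i (-1) (by decide) hi (by omega)
      have h2 := trans_unit F1 F2 F3 H (i + 3 * (-1)) (e + 1) (by omega) (by omega) (by omega)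
      have e1 : i + 3 * (-1) + 3 * (e + 1) = i + 3 * e := by ring
      rw [e1] at h2
      rw [h2, h1]
    · have h1 := trans_unit F1 F2 F3 H i 1 (by decide) hi (by omega)
      have h2 := trans_unit F1 F2 F3 H (i + 3 * 1) (e - 1) (by omega) (by omega) (by omega)
      have e1 : i + 3 * 1 + 3 * (e - 1) = i + 3 * e := by ring
      rw [e1] at h2
      rw [h2, h1]
  · exact trans_unit F1 F2 F3 H i e h3 hi hi'

end Pool.Agent.V11238.AIP
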