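import Pool.Agent.V11238.AIP.Core
import Pool.Agent.V11238.AIP.Pure

/-!
The main step: three functions from the integers to the colours whose values at any three integers
with sum zero are realised by three integers with sum zero. If the values at the multiples of `3^a`
are natural modulo `3^(a+2)`, then after a translation the values at the multiples of `3^(a+1)` are
natural modulo `3^(a+3)`.
-/

namespace Pool.Agent.V11238.AIP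

theorem eqcase (v : ℕ) (Z1 Z2 Z3 y1 y2 y3 : ℤ) (h1 : ¬ (3 : ℤ) ∣ Z1) (h2 : ¬ (3 : ℤ) ∣ Z2)
    (h3 : ¬ (3 : ℤ) ∣ Z3) (hs : (3 : ℤ) ∣ Z1 + Z2 + Z3) (hy : y1 + y2 + y3 = 0)
    (c1 : psi y1 = psi (3 ^ v * Z1)) (c2 : psi y2 = psi (3 ^ v * Z2))
    (c3 : psi y3 = psi (3 ^ v * Z3)) : (27 : ℤ) ∣ Z1 + Z2 + Z3 := by
  obtain ⟨w1, u1, rfl, n1, -, d1, -⟩ := inv_col y1 v Z1 h1 c1
  obtain ⟨w2, u2, rfl, n2, -, d2, -⟩ := inv_col y2 v Z2 h2 c2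
  obtain ⟨w3, u3, rfl, n3, -, d3, -⟩ := inv_col y3 v Z3 h3 c3
  obtain ⟨-, -, h⟩ := three_equal w1 w2 w3 u1 u2 u3 hy n1 n2 n3 (by omega) (by omega) (by omega)
  omega

theorem onecase (v : ℕ) (U1 Z2 Z3 y1 y2 y3 : ℤ) (h1 : ¬ (3 : ℤ) ∣ U1) (h2 : ¬ (3 : ℤ) ∣ Z2)
    (h3 : ¬ (3 : ℤ) ∣ Z3) (hs : (9 : ℤ) ∣ 3 * U1 + Z2 + Z3) (hy : y1 + y2 + y3 = 0)
    (c1 : psi y1 = psi (3 ^ (v + 1) * U1)) (c2 : psi y2 = psi (3 ^ v * Z2))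
    (c3 : psi y3 = psi (3 ^ v * Z3)) : (27 : ℤ) ∣ 3 * U1 + Z2 + Z3 := by
  obtain ⟨w1, u1, rfl, n1, m1, d1, -⟩ := inv_col y1 (v + 1) U1 h1 c1
  obtain ⟨w2, u2, rfl, n2, m2, d2, -⟩ := inv_col y2 v Z2 h2 c2
  obtain ⟨w3, u3, rfl, n3, m3, d3, -⟩ := inv_col y3 v Z3 h3 c3
  have h := two_equal w1 w2 w3 u1 u2 u3 hy n1 n2 n3 (by omega) (by omega) (by omega) (by omega)
  omega

theorem k2z (a : ℕ) (Z1 Z2 Z3 y1 y2 y3 : ℤ) (n1 : ¬ (9 : ℤ) ∣ Z1) (n2 : ¬ (9 : ℤ) ∣ Z2)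
    (n3 : ¬ (9 : ℤ) ∣ Z3) (hs : (9 : ℤ) ∣ Z1 + Z2 + Z3) (hy : y1 + y2 + y3 = 0)
    (c1 : psi y1 = psi (3 ^ a * Z1)) (c2 : psi y2 = psi (3 ^ a * Z2))
    (c3 : psi y3 = psi (3 ^ a * Z3)) : (27 : ℤ) ∣ Z1 + Z2 + Z3 := by
  have e : ∀ U : ℤ, (3 : ℤ) ^ a * (3 * U) = 3 ^ (a + 1) * U := by intro U; rw [pow_succ]; ring
  by_cases h1 : (3 : ℤ) ∣ Z1 <;> by_cases h2 : (3 : ℤ) ∣ Z2 <;> by_cases h3 : (3 : ℤ) ∣ Z3
  · obtain ⟨U1, rfl⟩ := h1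
    obtain ⟨U2, rfl⟩ := h2
    obtain ⟨U3, rfl⟩ := h3
    rw [e] at c1 c2 c3
    have := eqcase (a + 1) U1 U2 U3 y1 y2 y3 (by omega) (by omega) (by omega) (by omega) hy c1 c2 c3
    omega
  · exfalso; omega
  · exfalso; omega
  · obtain ⟨U1, rfl⟩ := h1
    rw [e] at c1
    exact onecase a U1 Z2 Z3 y1 y2 y3 (by omega) h2 h3 hs hy c1 c2 c3
  · exfalso; omega
  · obtain ⟨U2, rfl⟩ := h2
    rw [e] at c2
    have := onecase a U2 Z1 Z3 y2 y1 y3 (by omega) h1 h3 (by omega) (by linarith) c2 c1 c3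
    omega
  · obtain ⟨U3, rfl⟩ := h3
    rw [e] at c3
    have := onecase a U3 Z1 Z2 y3 y1 y2 (by omega) h1 h2 (by omega) (by linarith) c3 c1 c2
    omega
  · exact eqcase a Z1 Z2 Z3 y1 y2 y3 h1 h2 h3 (by omega) hy c1 c2 c3

theorem expo (v w : ℕ) (U u : ℤ) (hU : ¬ (3 : ℤ) ∣ U) (hu : ¬ (3 : ℤ) ∣ u) (h : w % 3 = v % 3)
    (hd : (27 : ℤ) ∣ 3 ^ v * U - 3 ^ w * u) : w = v ∨ (3 ≤ w ∧ 3 ≤ v) := by
  have e27 : (27 : ℤ) = 3 ^ 3 := by norm_num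
  by_cases hv : v < 3
  · by_cases hw : w < 3
    · left; omega
    · exfalso
      have h1 : (27 : ℤ) ∣ 3 ^ w * u := by
        rw [e27]; exact Dvd.dvd.mul_right (pow_dvd_pow _ (by omega)) u
      have h2 : (27 : ℤ) ∣ 3 ^ v * U := by
        have := dvd_add hd h1
        simpa using this
      interval_cases v <;> norm_num at h2 <;> omega
  · by_cases hw : w < 3
    · exfalso
      have h1 : (27 : ℤ) ∣ 3 ^ v * U := by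
        rw [e27]; exact Dvd.dvd.mul_right (pow_dvd_pow _ (by omega)) U
      have h2 : (27 : ℤ) ∣ 3 ^ w * u := by
        have := dvd_sub h1 hd
        simpa using this
      interval_cases w <;> norm_num at h2 <;> omega
    · right; omega

theorem low_class (v w2 w3 : ℕ) (u2 u3 y1 : ℤ) (h2 : ¬ (3 : ℤ) ∣ u2)
    (hy : y1 + 3 ^ w2 * u2 + 3 ^ w3 * u3 = 0) (hw : w2 < w3) (hv : w2 % 3 = v % 3) :
    (psi y1).2.1 = ((v : ℕ) : ZMod 3) := by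
  have h1 : y1 = 3 ^ w2 * (-(u2 + 3 * (3 ^ (w3 - w2 - 1) * u3))) := by
    rw [pow_split w2 w3 hw] at hy
    linear_combination hy
  rw [h1, psi_mul _ _ (by omega)]
  simp only
  rw [zmod3n]
  exact hv

/-- The third integer, if two integers with colours of the same valuation are given. -/
theorem center (v : ℕ) (U2 U3 y1 y2 y3 : ℤ) (h2 : ¬ (3 : ℤ) ∣ U2) (h3 : ¬ (3 : ℤ) ∣ U3)
    (hy : y1 + y2 + y3 = 0) (c2 : psi y2 = psi (3 ^ v * U2)) (c3 : psi y3 = psi (3 ^ v * U3)) :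
    (psi y1).2.1 = ((v : ℕ) : ZMod 3) ∨
      ∃ X : ℤ, psi y1 = psi (3 ^ v * X) ∧ (27 : ℤ) ∣ X + U2 + U3 := by
  obtain ⟨w2, u2, rfl, n2, m2, d2, e2⟩ := inv_col y2 v U2 h2 c2
  obtain ⟨w3, u3, rfl, n3, m3, d3, e3⟩ := inv_col y3 v U3 h3 c3
  rcases lt_trichotomy w2 w3 with h | h | h
  · left
    exact low_class v w2 w3 u2 u3 y1 n2 hy h m2
  · subst h
    right
    refine ⟨-(u2 + u3), ?_, by omega⟩
    have h1 : y1 = 3 ^ w2 * (-(u2 + u3)) := by linear_combination hy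
    rw [h1]
    exact scaling w2 v _ m2 (expo v w2 U2 u2 h2 n2 m2 e2)
  · left
    exact low_class v w3 w2 u3 u2 y1 n3 (by linarith) h m3

/-- The statement about `A1` at the multiples of `3^(a+1)`. -/
theorem one_side (a : ℕ) (A1 A2 A3 : ℤ → Col)
    (hrel : ∀ s1 s2 s3 : ℤ, s1 + s2 + s3 = 0 → ∃ y1 y2 y3 : ℤ, y1 + y2 + y3 = 0 ∧
      psi y1 = A1 s1 ∧ psi y2 = A2 s2 ∧ psi y3 = A3 s3)
    (E1 E2 E3 : ℤ → ℤ)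
    (h1 : ∀ k, psi (3 ^ a * (k + 9 * E1 k)) = A1 (3 ^ a * k))
    (h2 : ∀ k, psi (3 ^ a * (k + 9 * E2 k)) = A2 (3 ^ a * k))
    (h3 : ∀ k, psi (3 ^ a * (k + 9 * E3 k)) = A3 (3 ^ a * k)) :
    (3 : ℤ) ∣ E1 3 + E2 3 + E3 3 ∧
    ∀ k : ℤ, (3 : ℤ) ∣ k → ∃ X : ℤ, psi (3 ^ a * X) = A1 (3 ^ a * k) ∧
      (27 : ℤ) ∣ X - k - 9 * E1 3 := by
  have z3 : ∀ x : ℤ, ((x : ℤ) : ZMod 3) = 0 ↔ (3 : ℤ) ∣ x := fun x =>
    ZMod.intCast_zmod_eq_zero_iff_dvd x 3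
  have H : ∀ i j k : ℤ, ¬ (9 : ℤ) ∣ i → ¬ (9 : ℤ) ∣ j → ¬ (9 : ℤ) ∣ k → i + j + k = 0 →
      ((E1 i : ℤ) : ZMod 3) + ((E2 j : ℤ) : ZMod 3) + ((E3 k : ℤ) : ZMod 3) = 0 := by
    intro i j k hi hj hk hs
    obtain ⟨y1, y2, y3, hy, c1, c2, c3⟩ := hrel (3 ^ a * i) (3 ^ a * j) (3 ^ a * k)
      (by rw [← mul_add, ← mul_add, hs, mul_zero])
    have := k2z a (i + 9 * E1 i) (j + 9 * E2 j) (k + 9 * E3 k) y1 y2 y3 (by omega) (by omega)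
      (by omega) (by omega) hy (by rw [c1, h1]) (by rw [c2, h2]) (by rw [c3, h3])
    have h3' : (3 : ℤ) ∣ E1 i + E2 j + E3 k := by omega
    rw [← z3] at h3'
    push_cast at h3'
    exact h3'
  have H' : ∀ i j k : ℤ, ¬ (9 : ℤ) ∣ i → ¬ (9 : ℤ) ∣ j → ¬ (9 : ℤ) ∣ k → i + j + k = 0 →
      ((E3 i : ℤ) : ZMod 3) + ((E1 j : ℤ) : ZMod 3) + ((E2 k : ℤ) : ZMod 3) = 0 := by
    intro i j k hi hj hk hs
    have := H j k i hj hk hi (by linarith)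
    linear_combination this
  have P1 : ∀ i i' : ℤ, ¬ (9 : ℤ) ∣ i → ¬ (9 : ℤ) ∣ i' → (3 : ℤ) ∣ i' - i →
      (3 : ℤ) ∣ E1 i' - E1 i := by
    intro i i' hi hi' h
    have := pure_const (fun x => ((E1 x : ℤ) : ZMod 3)) (fun x => ((E2 x : ℤ) : ZMod 3))
      (fun x => ((E3 x : ℤ) : ZMod 3)) H i i' hi hi' h
    rw [← z3]; push_cast; exact sub_eq_zero.mpr this
  have P3 : ∀ i i' : ℤ, ¬ (9 : ℤ) ∣ i → ¬ (9 : ℤ) ∣ i' → (3 : ℤ) ∣ i' - i →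
      (3 : ℤ) ∣ E3 i' - E3 i := by
    intro i i' hi hi' h
    have := pure_const (fun x => ((E3 x : ℤ) : ZMod 3)) (fun x => ((E1 x : ℤ) : ZMod 3))
      (fun x => ((E2 x : ℤ) : ZMod 3)) H' i i' hi hi' h
    rw [← z3]; push_cast; exact sub_eq_zero.mpr this
  have H3 : ∀ i j k : ℤ, ¬ (9 : ℤ) ∣ i → ¬ (9 : ℤ) ∣ j → ¬ (9 : ℤ) ∣ k → i + j + k = 0 →
      (3 : ℤ) ∣ E1 i + E2 j + E3 k := by
    intro i j k hi hj hk hs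
    have := H i j k hi hj hk hs
    rw [← z3]; push_cast; exact this
  have q1 := H3 3 3 (-6) (by decide) (by decide) (by decide) (by norm_num)
  have q2 := P3 (-6) 3 (by decide) (by decide) (by decide)
  refine ⟨by omega, ?_⟩
  intro k hk
  by_cases h9 : (9 : ℤ) ∣ k
  · obtain ⟨m, rfl⟩ := h9
    -- the triple with valuation a + 1
    obtain ⟨y1, y2, y3, hy, c1, c2, c3⟩ := hrel (3 ^ a * (9 * m)) (3 ^ a * 3)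
      (3 ^ a * (-(9 * m) - 3)) (by ring)
    obtain ⟨y1', y2', y3', hy', c1', c2', c3'⟩ := hrel (3 ^ a * (9 * m)) (3 ^ a * 1)
      (3 ^ a * (-(9 * m) - 1)) (by ring)
    have e2 : psi y2 = psi (3 ^ (a + 1) * (1 + 3 * E2 3)) := by
      rw [c2, ← h2]; congr 1; rw [pow_succ]; ring
    have e3 : psi y3 = psi (3 ^ (a + 1) * (-(3 * m) - 1 + 3 * E3 (-(9 * m) - 3))) := by
      rw [c3, ← h3]; congr 1; rw [pow_succ]; ring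
    have e2' : psi y2' = psi (3 ^ a * (1 + 9 * E2 1)) := by
      rw [c2', ← h2]
    have e3' : psi y3' = psi (3 ^ a * (-(9 * m) - 1 + 9 * E3 (-(9 * m) - 1))) := by
      rw [c3', ← h3]
    have q3 := P3 (-6) (-(9 * m) - 3) (by decide) (by omega) (by omega)
    have q4 := H3 3 1 (-4) (by decide) (by decide) (by decide) (by norm_num)
    have q5 := P3 (-4) (-(9 * m) - 1) (by decide) (by omega) (by omega)
    rcases center (a + 1) _ _ y1 y2 y3 (by omega) (by omega) hy e2 e3 with r | ⟨X, r, r'⟩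
    · rcases center a _ _ y1' y2' y3' (by omega) (by omega) hy' e2' e3' with t | ⟨X, t, t'⟩
      · exfalso
        rw [c1] at r
        rw [c1'] at t
        rw [r, zmod3n] at t
        omega
      · refine ⟨X, by rw [← t, c1'], by omega⟩
    · refine ⟨3 * X, ?_, by omega⟩
      rw [← c1, r]; congr 1; rw [pow_succ]; ring
  · refine ⟨k + 9 * E1 k, h1 k, ?_⟩
    have := P1 3 k (by decide) h9 (by omega)
    omega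

/-- The main step. -/
theorem step (a : ℕ) (A1 A2 A3 : ℤ → Col)
    (hrel : ∀ s1 s2 s3 : ℤ, s1 + s2 + s3 = 0 → ∃ y1 y2 y3 : ℤ, y1 + y2 + y3 = 0 ∧
      psi y1 = A1 s1 ∧ psi y2 = A2 s2 ∧ psi y3 = A3 s3)
    (h1 : ∀ k : ℤ, ∃ X : ℤ, psi (3 ^ a * X) = A1 (3 ^ a * k) ∧ (9 : ℤ) ∣ X - k)
    (h2 : ∀ k : ℤ, ∃ X : ℤ, psi (3 ^ a * X) = A2 (3 ^ a * k) ∧ (9 : ℤ) ∣ X - k)
    (h3 : ∀ k : ℤ, ∃ X : ℤ, psi (3 ^ a * X) = A3 (3 ^ a * k) ∧ (9 : ℤ) ∣ X - k) :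
    ∃ σ1 σ2 σ3 : ℤ, σ1 + σ2 + σ3 = 0 ∧
      (∀ k : ℤ, ∃ X : ℤ, psi (3 ^ (a + 1) * X) = A1 (σ1 + 3 ^ (a + 1) * k) ∧ (9 : ℤ) ∣ X - k) ∧
      (∀ k : ℤ, ∃ X : ℤ, psi (3 ^ (a + 1) * X) = A2 (σ2 + 3 ^ (a + 1) * k) ∧ (9 : ℤ) ∣ X - k) ∧
      (∀ k : ℤ, ∃ X : ℤ, psi (3 ^ (a + 1) * X) = A3 (σ3 + 3 ^ (a + 1) * k) ∧ (9 : ℤ) ∣ X - k) := by
  have g : ∀ A : ℤ → Col, (∀ k : ℤ, ∃ X : ℤ, psi (3 ^ a * X) = A (3 ^ a * k) ∧ (9 : ℤ) ∣ X - k) →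
      ∃ E : ℤ → ℤ, ∀ k, psi (3 ^ a * (k + 9 * E k)) = A (3 ^ a * k) := by
    intro A h
    have : ∀ k : ℤ, ∃ e : ℤ, psi (3 ^ a * (k + 9 * e)) = A (3 ^ a * k) := by
      intro k
      obtain ⟨X, hX, e, he⟩ := h k
      refine ⟨e, ?_⟩
      rw [← hX, ← he]; congr 2; ring
    exact ⟨fun k => (this k).choose, fun k => (this k).choose_spec⟩
  obtain ⟨E1, g1⟩ := g A1 h1
  obtain ⟨E2, g2⟩ := g A2 h2
  obtain ⟨E3, g3⟩ := g A3 h3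
  obtain ⟨hs, r1⟩ := one_side a A1 A2 A3 hrel E1 E2 E3 g1 g2 g3
  obtain ⟨-, r2⟩ := one_side a A2 A3 A1 (by
    intro s1 s2 s3 h
    obtain ⟨y1, y2, y3, hy, c1, c2, c3⟩ := hrel s3 s1 s2 (by linarith)
    exact ⟨y2, y3, y1, by linarith, c2, c3, c1⟩) E2 E3 E1 g2 g3 g1
  obtain ⟨-, r3⟩ := one_side a A3 A1 A2 (by
    intro s1 s2 s3 h
    obtain ⟨y1, y2, y3, hy, c1, c2, c3⟩ := hrel s2 s3 s1 (by linarith)
    exact ⟨y3, y1, y2, by linarith, c3, c1, c2⟩) E3 E1 E2 g3 g1 g2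
  have key : ∀ (A : ℤ → Col) (e f : ℤ), (3 : ℤ) ∣ e + f →
      (∀ k : ℤ, (3 : ℤ) ∣ k → ∃ X : ℤ, psi (3 ^ a * X) = A (3 ^ a * k) ∧
        (27 : ℤ) ∣ X - k - 9 * e) →
      ∀ k : ℤ, ∃ X : ℤ, psi (3 ^ (a + 1) * X) = A (3 ^ a * (9 * f) + 3 ^ (a + 1) * k) ∧
        (9 : ℤ) ∣ X - k := by
    intro A e f hef h k
    obtain ⟨X, hX, hd⟩ := h (9 * f + 3 * k) (by omega)
    have h3X : (3 : ℤ) ∣ X := by omega
    obtain ⟨X', rfl⟩ := h3X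
    refine ⟨X', ?_, by omega⟩
    have e1 : (3 : ℤ) ^ (a + 1) * X' = 3 ^ a * (3 * X') := by rw [pow_succ]; ring
    have e2 : (3 : ℤ) ^ a * (9 * f) + 3 ^ (a + 1) * k = 3 ^ a * (9 * f + 3 * k) := by
      rw [pow_succ]; ring
    rw [e1, e2, hX]
  refine ⟨3 ^ a * (9 * (-E1 3)), 3 ^ a * (9 * (-E2 3)), 3 ^ a * (9 * (E1 3 + E2 3)), by ring,
    key A1 (E1 3) _ (by omega) r1, key A2 (E2 3) _ (by omega) r2, key A3 (E3 3) _ (by omega) r3⟩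

/-- All levels. -/
theorem levels (A1 A2 A3 : ℤ → Col)
    (hrel : ∀ s1 s2 s3 : ℤ, s1 + s2 + s3 = 0 → ∃ y1 y2 y3 : ℤ, y1 + y2 + y3 = 0 ∧
      psi y1 = A1 s1 ∧ psi y2 = A2 s2 ∧ psi y3 = A3 s3)
    (h1 : ∀ k : ℤ, ∃ X : ℤ, psi X = A1 k ∧ (9 : ℤ) ∣ X - k)
    (h2 : ∀ k : ℤ, ∃ X : ℤ, psi X = A2 k ∧ (9 : ℤ) ∣ X - k)
    (h3 : ∀ k : ℤ, ∃ X : ℤ, psi X = A3 k ∧ (9 : ℤ) ∣ X - k) (a : ℕ) :
    ∃ σ1 σ2 σ3 : ℤ, σ1 + σ2 + σ3 = 0 ∧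
      (∀ k : ℤ, ∃ X : ℤ, psi (3 ^ a * X) = A1 (σ1 + 3 ^ a * k) ∧ (9 : ℤ) ∣ X - k) ∧
      (∀ k : ℤ, ∃ X : ℤ, psi (3 ^ a * X) = A2 (σ2 + 3 ^ a * k) ∧ (9 : ℤ) ∣ X - k) ∧
      (∀ k : ℤ, ∃ X : ℤ, psi (3 ^ a * X) = A3 (σ3 + 3 ^ a * k) ∧ (9 : ℤ) ∣ X - k) := by
  induction a with
  | zero =>
    refine ⟨0, 0, 0, by ring, ?_, ?_, ?_⟩ <;> intro k
    · simpa using h1 k
    · simpa using h2 k
    · simpa using h3 k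
  | succ a ih =>
    obtain ⟨σ1, σ2, σ3, hs, r1, r2, r3⟩ := ih
    obtain ⟨τ1, τ2, τ3, ht, q1, q2, q3⟩ := step a (fun s => A1 (σ1 + s)) (fun s => A2 (σ2 + s))
      (fun s => A3 (σ3 + s)) (by
        intro s1 s2 s3 h
        exact hrel _ _ _ (by linarith)) r1 r2 r3
    refine ⟨σ1 + τ1, σ2 + τ2, σ3 + τ3, by linarith, ?_, ?_, ?_⟩ <;> intro k
    · obtain ⟨X, hX, hd⟩ := q1 k
      exact ⟨X, by rw [hX, add_assoc], hd⟩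
    · obtain ⟨X, hX, hd⟩ := q2 k
      exact ⟨X, by rw [hX, add_assoc], hd⟩
    · obtain ⟨X, hX, hd⟩ := q3 k
      exact ⟨X, by rw [hX, add_assoc], hd⟩

/-- Such functions are not periodic. -/
theorem not_periodic (A1 A2 A3 : ℤ → Col)
    (hrel : ∀ s1 s2 s3 : ℤ, s1 + s2 + s3 = 0 → ∃ y1 y2 y3 : ℤ, y1 + y2 + y3 = 0 ∧
      psi y1 = A1 s1 ∧ psi y2 = A2 s2 ∧ psi y3 = A3 s3)
    (h1 : ∀ k : ℤ, ∃ X : ℤ, psi X = A1 k ∧ (9 : ℤ) ∣ X - k)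
    (h2 : ∀ k : ℤ, ∃ X : ℤ, psi X = A2 k ∧ (9 : ℤ) ∣ X - k)
    (h3 : ∀ k : ℤ, ∃ X : ℤ, psi X = A3 k ∧ (9 : ℤ) ∣ X - k)
    (m : ℤ) (hm : m ≠ 0) (hper : ∀ s, A1 (s + m) = A1 s) : False := by
  obtain ⟨c, u, rfl, hu⟩ := decomp m hm
  obtain ⟨σ1, -, -, -, r1, -, -⟩ := levels A1 A2 A3 hrel h1 h2 h3 c
  obtain ⟨X, hX, hd⟩ := r1 u
  obtain ⟨X', hX', hd'⟩ := r1 (-u)
  have e : A1 (σ1 + 3 ^ c * u) = A1 (σ1 + 3 ^ c * (-u)) := by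
    have t1 := hper σ1
    have t2 := hper (σ1 + 3 ^ c * (-u))
    have e1 : σ1 + 3 ^ c * (-u) + 3 ^ c * u = σ1 := by ring
    rw [e1] at t2
    rw [t1, t2]
  rw [← hX, ← hX', psi_mul _ _ (by omega), psi_mul _ _ (by omega)] at e
  have h := congrArg (fun c : Col => c.2.2) e
  simp only at h
  rw [zmod27] at h
  omega

end Pool.Agent.V11238.AIP
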